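import Pool.Agent.TH935.HM1
import Pool.Agent.U828.KD.One

/-!
# Hooley's asymptotic formula for the variance, for ALL the moduli near almost all values of an arbitrary function of higher
convexity

Fix `r ≥ 2`. Let `f` be ANY function on `{1, ..., x}`, `x ≥ N ^ (1 / r + η)`, with values in `[-N / 2, N / 2]`, whose
differences of order `r` are all at least `N / (x ^ r log ^ C N)`, or all at most the negative of this number. For all but
`x / log ^ U N` of the `m ≤ x`, ALL the moduli `Q ≥ N / log ^ κ N` at a distance of at most `log ^ C N` from `f m` satisfy the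
asymptotic formula `G(y, Q) ~ y log Q` of the problem, uniformly for `Q ≤ y ≤ Q log ^ κ N`.

For `r = 2` these are the strictly convex (or concave) functions; for larger `r` there are only `N ^ (1 / r + η)` points, so
the moduli run through neighbourhoods of arbitrarily sparse sets (any power `N ^ θ`, `θ > 0`), and no regularity is
assumed besides the sign and the size of the `r`-th differences. The earlier results of this
problem on thin sets of moduli treat digit sets, explicit sequences, real polynomials of a bounded degree and families of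
nearly minimal additive energy.

Proof: the energy theorem `Pool.Agent.U828.KD.energy_r` (helper828: an `r`-th derivative test for arbitrary sequences, and
Fejér kernels), the passage to all the integers near the values (`Pool.Agent.U828.KD.nearOne`, helper828), and the theorem
`Pool.Agent.TH935.HM.mod_fam` (families of moduli of nearly minimal energy) of the starting files.
-/

set_option autoImplicit false

namespace Pool.Agent.Results.MP_5d318d_nt.HigherConvexModuli

open Finset

/-- `ψ(x; q, a) = ∑_{n ≤ x, n ≡ a mod q} Λ(n)` for `0 ≤ a < q` -/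
noncomputable def psiAP (x : ℝ) (q a : ℕ) : ℝ :=
  ∑ n ∈ (Icc 1 ⌊x⌋₊).filter (fun n => n % q = a), ArithmeticFunction.vonMangoldt n

/-- The variance `G(x,q) = ∑_{a mod q, (a,q)=1} (ψ(x;q,a) - x/φ(q))²`. -/
noncomputable def G (x : ℝ) (q : ℕ) : ℝ :=
  ∑ a ∈ (range q).filter (fun a => Nat.Coprime a q), (psiAP x q a - x / (Nat.totient q : ℝ)) ^ 2

/-- `|G(y,Q) - y log Q| ≤ ε y log Q` for all real `y` with `Q ≤ y ≤ Q (log N) ^ κ`. -/
def Good (ε : ℝ) (κ N Q : ℕ) : Prop :=
  ∀ y : ℝ, (Q : ℝ) ≤ y → y ≤ Q * Real.log N ^ κ → |G y Q - y * Real.log Q| ≤ ε * (y * Real.log Q)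

/-- The differences of order `r` of `f` on `{1, ..., x}` are all at least `κ`, or all at most `-κ`. Here `fwdDiff 1 f m`
is the difference `f (m + 1) - f m`. -/
def Bent (r x : ℕ) (f : ℕ → ℝ) (κ : ℝ) : Prop :=
  (∀ m, 1 ≤ m → m + r ≤ x → κ ≤ (fwdDiff 1)^[r] f m) ∨ (∀ m, 1 ≤ m → m + r ≤ x → (fwdDiff 1)^[r] f m ≤ -κ)

open Classical in
/-- **Hooley's formula for all the moduli near the values of arbitrary functions of higher convexity.** Let `r ≥ 2`, `C`, `κ`,
`U`, `η > 0` and `0 < ε ≤ 1` be fixed. For all large `N`, all `x ≥ N ^ (1 / r + η)` and ALL functions `f` with values in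
`[-N / 2, N / 2]` on `{1, ..., x}` whose differences of order `r` are all at least `N / (x ^ r log ^ C N)`, or all at most the
negative of this number: for all but at most `x / log ^ U N` of the `m ≤ x`, ALL the moduli `Q ≥ N / log ^ κ N` with
`|Q - f m| ≤ log ^ C N` satisfy `|G(y,Q) - y log Q| ≤ ε y log Q` for all real `y` with `Q ≤ y ≤ Q log ^ κ N`. -/
theorem result (r : ℕ) (hr : 2 ≤ r) (C κ U : ℕ) (η ε : ℝ) (hη : 0 < η) (hε : 0 < ε) (hε1 : ε ≤ 1) :
    ∃ N₀ : ℕ, ∀ N : ℕ, N₀ ≤ N → ∀ x : ℕ, (N : ℝ) ^ (1 / (r : ℝ) + η) ≤ x →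
    ∀ f : ℕ → ℝ, (∀ m ∈ Icc 1 x, |f m| ≤ N / 2) → Bent r x f (N / ((x : ℝ) ^ r * Real.log N ^ C)) →
    (((Icc 1 x).filter (fun m => ¬ ∀ Q : ℕ, (N : ℝ) ≤ Q * Real.log N ^ κ → |(Q : ℝ) - f m| ≤ Real.log N ^ C →
      Good ε κ N Q)).card : ℝ) ≤ x / Real.log N ^ U := by
  obtain ⟨h, D, V, n1, hh, h1⟩ := Pool.Agent.U828.KD.nearOne r hr 1 C U η hη
  obtain ⟨n2, h2⟩ := Pool.Agent.TH935.HM.mod_fam h D κ V ε hε hε1
  obtain ⟨n3, h3⟩ := Pool.Agent.H373R2.T7.ev_log' C 2
  refine ⟨n1 + n2 + n3 + 1, fun N hN x hx f hf hb => ?_⟩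
  have h4 := h3 N (by omega)
  have hN1 : (1 : ℝ) ≤ N := by exact_mod_cast (by omega : 1 ≤ N)
  have h5 : Real.log N ^ C ≤ N / 2 := by
    have h6 : √(N : ℝ) ≤ N := by
      rw [Real.sqrt_le_left (by positivity)]
      nlinarith
    linarith
  apply h1 N (by omega) (fun b => ¬ (0 < b ∧ (N : ℝ) ≤ b.toNat * Real.log N ^ κ ∧ ¬ Good ε κ N b.toNat)) _ x hx f
    (fun m hm => (hf m hm).trans (by push_cast; linarith)) hb _ (filter_subset _ _)
  · intro m hm
    obtain ⟨hm1, hm2⟩ := mem_filter.1 hm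
    push Not at hm2
    obtain ⟨Q, hQ1, hQ2, hQ3⟩ := hm2
    have hQ0 : Q ≠ 0 := by
      rintro rfl
      rw [Nat.cast_zero, zero_mul] at hQ1
      linarith
    refine ⟨(Q : ℤ), ?_, by exact_mod_cast hQ2, ?_⟩
    · have h6 := abs_le.1 (hf m hm1)
      have h7 := abs_le.1 hQ2
      rw [Int.cast_natCast, abs_of_nonneg (Nat.cast_nonneg Q)]
      push_cast
      linarith [h6.2, h7.2]
    · rw [not_not]
      refine ⟨by exact_mod_cast Nat.pos_of_ne_zero hQ0, ?_, ?_⟩
      · rw [Int.toNat_natCast]; exact hQ1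
      · rw [Int.toNat_natCast]; exact hQ3
  · intro x s hs hE S hSx hS
    refine h2 N (by omega) x s (fun m hm => by have := hs m hm; push_cast at this; linarith) hE S hSx fun m hm => ?_
    have h6 := hS m hm
    rw [not_not] at h6
    obtain ⟨h7, h8, h9⟩ := h6
    refine ⟨h7, h8, ?_⟩
    unfold Good at h9
    push Not at h9
    obtain ⟨y, hy1, hy2, hy3⟩ := h9
    exact ⟨y, hy1, hy2, not_le.2 hy3⟩

end Pool.Agent.Results.MP_5d318d_nt.HigherConvexModuli
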