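import Pool.Agent.U365.MOD.A
import Pool.Agent.U365.AQG.B

/-!
# Hooley's conjecture for all the multiples of aliquot sums, cototients and similar moduli

Let `s(m) = σ(m) - m` be the sum of the proper divisors of `m`. For almost all even integers `m` with a prime factor larger
than `m^(1/3 + ρ)`, Hooley's asymptotic formula `G(x, Q) ~ x log Q` holds, with a relative error of at most `ε`, for ALL `x`
between `Q` and `Q (log Q)^K` and for ALL the multiples `Q = t n`, `t ≤ (log n)^K`, of the moduli `n = s(m)` and
`n = m - φ(m)`. So this is the case for at least two thirds of all even `m`. The same is true for the moduli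
`n = α m + β f(m)`, where `f` is any positive multiplicative function of moderate growth with `f(p) = p + c`, `c ≠ 0`, for
all large primes `p`, as long as `n` is positive and not very small. These functions are not multiplicative, nothing is known
on the distribution of their values in the residue classes to large moduli, and their values are taken with large
multiplicities; so this does not follow from the bounds for the number of exceptional moduli up to a given limit.

Proof. Write `m = k p` with the large prime factor `p`. Then `n = A p + B` with `A = α k + β f(k)` and `B = β c f(k)`, and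
`A` is at most `x^(2/3 - ρ)`, up to a power of the logarithm. So `t n` runs through the class of `t B` modulo `t A`, and the
theorem of the starting files on Hooley's conjecture in the residue classes of every modulus (`ModuliInClasses`) is applied
for every `k` and every `t`; the greatest common divisor of `t A` and `t B` is at most a power of the logarithm, for almost
all `m` (`N733/AQ`, starting files).
-/

set_option autoImplicit false

namespace Pool.Agent.Results.MP_5d318d_nt.AliquotModuli

open Finset Filter Topology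
open Pool.Agent.Results.MP_5d318d_nt.ModuliInClasses (G)
open Pool.Agent.U365.AQG (Moderate LargePrime AlmostAll aliquot)

/-- `|G(x,Q) - x log Q| ≤ ε x log Q` for ALL real `x` with `Q ≤ x ≤ Q (log Q)^K`. -/
def Hooley (ε : ℝ) (K Q : ℕ) : Prop :=
  ∀ x : ℝ, (Q : ℝ) ≤ x → x ≤ Q * Real.log Q ^ K → |G x Q - x * Real.log Q| ≤ ε * (x * Real.log Q)

/-- The modulus `n` is at least `3`, and ALL its multiples `Q = t n`, `1 ≤ t ≤ (log n)^K`, satisfy `Hooley ε K Q`. -/
def Multiples (ε : ℝ) (K n : ℕ) : Prop :=
  3 ≤ n ∧ ∀ t : ℕ, 1 ≤ t → (t : ℝ) ≤ Real.log n ^ K → Hooley ε K (t * n)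

theorem both (ε : ℝ) (hε : 0 < ε) (K : ℕ) (ρ : ℝ) (hρ : 0 < ρ) :
    AlmostAll (fun m => Even m → LargePrime (1 / 3 + ρ) m →
      Multiples ε K (aliquot m) ∧ Multiples ε K (m - Nat.totient m)) := by
  have h := Pool.Agent.U365.AQG.both' (2 / 3) (by norm_num) (by norm_num) _ (Pool.Agent.U365.MOD.ebt_VM ε hε K) 3 ρ hρ
  rw [show (1 - 2 / 3 : ℝ) = 1 / 3 by norm_num] at h
  exact h

open Classical in
/-- **Hooley's conjecture for aliquot sums, cototients and similar moduli.** Let `f` be a positive multiplicative function of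
moderate growth with `f p = p + c`, `c ≠ 0`, for all large primes `p`, let `α`, `β` be nonzero integers and `ρ, ε > 0`. For
almost all `m` with a prime factor `≥ m^(1/3 + ρ)` and `n = α m + β f(m) ≥ m / (log m)^C` ALL the multiples `Q = t n`,
`1 ≤ t ≤ (log n)^K`, satisfy `|G(x,Q) - x log Q| ≤ ε x log Q` for ALL real `x` with `Q ≤ x ≤ Q (log Q)^K`. Euler's function
and the sum of the divisors are examples. For almost all even `m` with a prime factor `≥ m^(1/3 + ρ)` this holds for the sum
`s(m)` of the proper divisors and for the cototient `m - φ(m)`; this is so for a proportion of at least `2/3` of the even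
integers `m`. -/
theorem result :
    (∀ (f : ℕ → ℕ) (c α β : ℤ) (C K : ℕ) (ρ ε : ℝ), Moderate f c → c ≠ 0 → α ≠ 0 → β ≠ 0 → 0 < ρ → 0 < ε →
      AlmostAll (fun m => LargePrime (1 / 3 + ρ) m → (m : ℝ) / Real.log m ^ C ≤ ((α * m + β * f m : ℤ) : ℝ) →
        ∀ n : ℕ, (n : ℤ) = α * m + β * f m → ∀ t : ℕ, 1 ≤ t → (t : ℝ) ≤ Real.log n ^ K → Hooley ε K (t * n))) ∧
    (Moderate Nat.totient (-1) ∧ Moderate (fun m => ∑ d ∈ m.divisors, d) 1) ∧
    (∀ (K : ℕ) (ρ ε : ℝ), 0 < ρ → 0 < ε → AlmostAll (fun m => Even m → LargePrime (1 / 3 + ρ) m →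
      Multiples ε K (aliquot m) ∧ Multiples ε K (m - Nat.totient m))) ∧
    ∀ (K : ℕ) (ε δ : ℝ), 0 < ε → δ < 2 / 3 → ∃ N₀ : ℕ, ∀ N : ℕ, N₀ ≤ N → δ * (N / 2) ≤
      (((Icc 1 N).filter (fun m => Even m ∧ Multiples ε K (aliquot m) ∧ Multiples ε K (m - Nat.totient m))).card : ℝ) := by
  refine ⟨fun f c α β C K ρ ε hf hc hα hβ hρ hε => ?_,
    ⟨Pool.Agent.U365.AQG.moderate_totient, Pool.Agent.U365.AQG.moderate_sigma⟩,
    fun K ρ ε hρ hε => both ε hε K ρ hρ, fun K ε δ hε hδ => ?_⟩
  · have h := Pool.Agent.U365.AQG.general' (2 / 3) (by norm_num) (by norm_num) _ (Pool.Agent.U365.MOD.ebt_VM ε hε K)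
      f c α β C ρ hf hc hα hβ hρ
    rw [show (1 - 2 / 3 : ℝ) = 1 / 3 by norm_num] at h
    refine Pool.Agent.U365.AQG.almostAll_and h h 0 (fun m _ h1 _ hl hg n hn => ?_)
    have h2 := h1 hl hg
    rw [← hn, Int.toNat_natCast] at h2
    exact h2
  · obtain ⟨N₀, h⟩ := Pool.Agent.U365.AQG.density (2 / 3) (by norm_num)
      (fun m => Multiples ε K (aliquot m) ∧ Multiples ε K (m - Nat.totient m)) (fun η hη => by
        rw [show (1 - 2 / 3 : ℝ) = 1 / 3 by norm_num]
        exact both ε hε K η hη) δ hδ
    exact ⟨N₀, fun N hN => (h N hN).trans (Nat.cast_le.2 (Pool.Agent.U365.AQG.card_mono' (fun m hm => hm)))⟩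

end Pool.Agent.Results.MP_5d318d_nt.AliquotModuli
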