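import Pool.Agent.TH935.HM1
import Pool.Agent.U471.RP.LogNear2

/-!
# Hooley's asymptotic formula for the variance, for all the moduli near almost all values of real polynomials

Let `f` be a real polynomial of degree at most `d` whose coefficient of `t ^ d` lies between `(log N) ^ (-C)` and
`(log N) ^ C`, with `|f(m)| ≤ N / 2` for `m = 1, …, x`, where `(log N) ^ C x ^ d ≥ N`; the other coefficients are arbitrary.
For all but a proportion `(log N) ^ (-U)` of the `m ≤ x`, ALL the moduli `Q ≥ N / (log N) ^ κ` with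
`|Q - f(m)| ≤ (log N) ^ W` satisfy the asymptotic formula `G(x', Q) ~ x' log Q` of the problem, uniformly for
`Q ≤ x' ≤ Q (log N) ^ κ`. The theorem is uniform in `f`.

Proof: an inverse theorem for Weyl sums (`Pool.Agent.H373R2.NB.IW_all`) shows that the integers near the values have, up to
powers of `log N`, the least possible additive energy of some order (`Pool.Agent.U471.RP.energy_real`); then the theorem of
the starting files on families of moduli of small energy (`Pool.Agent.TH935.HM.mod_fam`) is applied for every distance of the modulus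
from the integer part of `f(m)` (`Pool.Agent.U471.RP.log_near_half`).
-/

set_option autoImplicit false

namespace Pool.Agent.Results.MP_5d318d_nt.RealPolynomialModuli

open Finset Polynomial

/-- `ψ(x; q, a) = ∑_{n ≤ x, n ≡ a mod q} Λ(n)` for `0 ≤ a < q` -/
noncomputable def psiAP (x : ℝ) (q a : ℕ) : ℝ :=
  ∑ n ∈ (Icc 1 ⌊x⌋₊).filter (fun n => n % q = a), ArithmeticFunction.vonMangoldt n

/-- The variance `G(x,q) = ∑_{a mod q, (a,q)=1} (ψ(x;q,a) - x/φ(q))²`. -/
noncomputable def G (x : ℝ) (q : ℕ) : ℝ :=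
  ∑ a ∈ (range q).filter (fun a => Nat.Coprime a q), (psiAP x q a - x / (Nat.totient q : ℝ)) ^ 2

/-- `|G(x,Q) - x log Q| ≤ ε x log Q` for all real `x` with `Q ≤ x ≤ Q (log N) ^ κ`. -/
def Good (ε : ℝ) (κ N Q : ℕ) : Prop :=
  ∀ x : ℝ, (Q : ℝ) ≤ x → x ≤ Q * Real.log N ^ κ → |G x Q - x * Real.log Q| ≤ ε * (x * Real.log Q)

/-- The real polynomials `f` of degree at most `d`, with `(log N) ^ (-C) ≤ f_d ≤ (log N) ^ C` for the coefficient `f_d`
of `t ^ d`, and with `|f(m)| ≤ N / 2` for `m = 1, …, x`, where `(log N) ^ C x ^ d ≥ N`. -/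
structure Normal (d C N x : ℕ) (f : ℝ[X]) : Prop where
  degree : f.natDegree ≤ d
  lower : 1 / Real.log N ^ C ≤ f.coeff d
  upper : f.coeff d ≤ Real.log N ^ C
  length : (N : ℝ) ≤ Real.log N ^ C * (x : ℝ) ^ d
  values : ∀ m ∈ Icc 1 x, |f.eval (m : ℝ)| ≤ N / 2

open Classical in
/-- The number of the `m ≤ x` such that some modulus `Q ≥ N / (log N) ^ κ` with `|Q - f(m)| ≤ (log N) ^ W` does not have the
property `Good`. -/
noncomputable def exceptions (ε : ℝ) (κ W N x : ℕ) (f : ℝ[X]) : ℕ :=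
  ((Icc 1 x).filter (fun m : ℕ => ∃ Q : ℕ, 0 < Q ∧ (N : ℝ) ≤ Q * Real.log N ^ κ ∧
    |(Q : ℝ) - f.eval (m : ℝ)| ≤ Real.log N ^ W ∧ ¬ Good ε κ N Q)).card

/-- **Hooley's formula for all the moduli near the values of real polynomials.** Let `d ≥ 1`, `C`, `κ`, `U`, `W` and
`0 < ε ≤ 1` be fixed and let `N` be large. For all `x` and ALL real polynomials `f` with `Normal d C N x f`: for all but at
most `x / log ^ U N` of the `m ≤ x`, ALL the moduli `Q ≥ N / (log N) ^ κ` with `|Q - f(m)| ≤ (log N) ^ W` satisfy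
`|G(x',Q) - x' log Q| ≤ ε x' log Q` for all real `x'` with `Q ≤ x' ≤ Q (log N) ^ κ`. -/
theorem result (d : ℕ) (hd : 1 ≤ d) (C κ U W : ℕ) (ε : ℝ) (hε : 0 < ε) (hε1 : ε ≤ 1) :
    ∃ N₀ : ℕ, ∀ N : ℕ, N₀ ≤ N → ∀ (x : ℕ) (f : ℝ[X]), Normal d C N x f →
      (exceptions ε κ W N x f : ℝ) ≤ x / Real.log N ^ U := by
  classical
  obtain ⟨p, hp, hnear⟩ := Pool.Agent.U471.RP.log_near_half d hd
  obtain ⟨N₁, h1⟩ := Pool.Agent.TH935.HM.mod_fam p (6 * C + 2 * W + 1) κ (U + W + 1) ε hε hε1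
  obtain ⟨N₀, h0⟩ := hnear C W U (Θ := Unit) (fun _ _ => True)
    (fun N _ b => 0 < b ∧ (N : ℝ) ≤ b.toNat * Real.log N ^ κ ∧ ¬ Good ε κ N b.toNat) N₁
    (fun N hN _ _ x s hs hE S hSx hS => h1 N hN x s hs hE S hSx fun m hm => by
      obtain ⟨h2, h3, h4⟩ := hS m hm
      refine ⟨h2, h3, ?_⟩
      unfold Good at h4
      push Not at h4
      obtain ⟨y, hy1, hy2, hy3⟩ := h4
      exact ⟨y, hy1, hy2, not_le.2 hy3⟩)
  refine ⟨N₀, fun N hN x f hf => ?_⟩
  unfold exceptions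
  refine h0 N hN () trivial x f ⟨hf.degree, hf.lower, hf.upper, hf.length, hf.values⟩ _ (filter_subset _ _) ?_
  intro m hm
  rw [mem_filter] at hm
  obtain ⟨_, Q, hQ0, hQ1, hQ2, hQ3⟩ := hm
  refine ⟨(Q : ℤ), by exact_mod_cast hQ2, by exact_mod_cast hQ0, ?_, ?_⟩
  · rw [Int.toNat_natCast]; exact hQ1
  · rw [Int.toNat_natCast]; exact hQ3

end Pool.Agent.Results.MP_5d318d_nt.RealPolynomialModuli
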