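import Pool.Agent.U847.WT
import Pool.Agent.N625.PT.G

/-!
# Hooley's conjecture for all the multiples of moduli whose digits label walks in infinite graphs

The modulus is any multiple `h q`, `h ≤ k ^ J`, of any integer `q` near `c + κ v`, for almost all the integers `v` whose
`k` digits are the labels of the walks between two vertices of a graph, for example of the Cayley graph of a group: then
these are the integers whose digits spell a given element of the group. Such a set can contain as few as `N ^ ε` integers
below `N`, and in general it is not automatic.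

From Mathlib: `ArithmeticFunction.vonMangoldt`: the function `Λ`; `Nat.totient`: Euler's function; `Finset.Icc 1 x`: the
integers from `1` to `x`.

Method: the exponential sum over the walks is dominated by the iterates of the adjacency operator of the graph, which
loses a constant factor at every digit where the frequency is not extremal (starting files, `Pool.Agent.N625.GW`). New
here: a frequency `θ` at which the exponential sum over the multiples `h v` is large differs little from a fraction with a
small denominator except at `O(log k)` of the digits, for all `h ≤ k ^ J` (`Pool.Agent.U847.TG`, `Pool.Agent.U847.TI`). The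
passage from such a description of the large frequencies to the variance is from the starting files
(`Pool.Agent.N625.PT.t_hooley`).
-/

set_option autoImplicit false

namespace Pool.Agent.Results.MP_5d318d_nt.WalkModuli

open Finset

/-- `ψ(x; q, a) = ∑_{n ≤ x, n ≡ a mod q} Λ(n)` for `0 ≤ a < q` -/
noncomputable def psiAP (x : ℝ) (q a : ℕ) : ℝ :=
  ∑ n ∈ (Icc 1 ⌊x⌋₊).filter (fun n => n % q = a), ArithmeticFunction.vonMangoldt n

/-- The variance `G(x,q) = ∑_{a mod q, (a,q)=1} (ψ(x;q,a) - x/φ(q))²`. -/
noncomputable def G (x : ℝ) (q : ℕ) : ℝ :=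
  ∑ a ∈ (range q).filter (fun a => Nat.Coprime a q), (psiAP x q a - x / (Nat.totient q : ℝ)) ^ 2

/-- `|G(x,Q) - x log Q| ≤ ε x log Q` for ALL real `x` with `Q ≤ x ≤ Q R`. -/
def Good (ε R : ℝ) (Q : ℕ) : Prop :=
  ∀ x : ℝ, (Q : ℝ) ≤ x → x ≤ Q * R → |G x Q - x * Real.log Q| ≤ ε * (x * Real.log Q)

/-- The digits `a < b` act on the set `X` of the vertices: an edge with the label `a` leads from `x` to `y` if
`δ x a = some y` (at most one edge with the label `a` starts at `x`). The number of the edges from `x` to `y` equals the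
number of the edges from `y` to `x`, and at least two edges start at every vertex. The graph may be infinite. -/
structure Graph {X : Type} (b : ℕ) (δ : X → ℕ → Option X) : Prop where
  symm : ∀ x y : X, {a : ℕ | a < b ∧ δ x a = some y}.ncard = {a : ℕ | a < b ∧ δ y a = some x}.ncard
  two : ∀ x : X, ∃ a a' : ℕ, a < a' ∧ a' < b ∧ (δ x a).isSome ∧ (δ x a').isSome

open Classical in
/-- The integers `v < b ^ k` whose `k` digits in base `b`, from the most significant to the least significant one (the
digit number `i`, `0 ≤ i < k`, from the left is `v / b ^ (k - 1 - i) % b`), are the labels of a walk from `x` to `y`. -/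
noncomputable def walks {X : Type} (b : ℕ) (δ : X → ℕ → Option X) (k : ℕ) (x y : X) : Finset ℕ :=
  (range (b ^ k)).filter fun v =>
    ((List.range k).map fun i => v / b ^ (k - 1 - i) % b).foldl (fun s a => s.bind fun z => δ z a) (some x) = some y

open Classical in
/-- **Hooley's conjecture for all the multiples of the moduli given by walks.** Let `δ` be a graph (infinite or not) whose
edges are labelled with the digits in base `b`, let `x` be a vertex and let `ρ > 0` be such that there are at most
`ρ ^ (2 n)` closed walks of the length `2 n` at `x`, for all `n`. Let `κ ≠ 0`, `D`, `B`, `J`, `W`, `A`, `U` and `0 < ε ≤ 1`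
be fixed and let `k` be large. Let `y` be a vertex such that the number of the walks of the length `k` from `x` to `y` is at
least `ρ ^ k / k ^ D`, and let `c` be an integer with `|c| ≤ B b ^ k`. Then for all the integers `v` whose `k` digits in base
`b` are the labels of a walk from `x` to `y`, with the exception of a proportion of at most `1 / k ^ U` of them, the following
holds: ALL the integers `q ≥ 1` at a distance of at most `k ^ W` from `c + κ v` and ALL `h` with `1 ≤ h ≤ k ^ J` are such that
the modulus `Q = h q` satisfies `|G(x,Q) - x log Q| ≤ ε x log Q` for ALL real `x` with `Q ≤ x ≤ Q k ^ A`.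

(For a group of polynomial growth, a free group, or any group with the property of rapid decay, there are at least
`ρ ^ k / k ^ D` closed walks of every even length `k` in the Cayley graph, where `ρ` is its spectral radius.) -/
theorem result {X : Type} (b : ℕ) (δ : X → ℕ → Option X) (hG : Graph b δ) (x : X) (ρ : ℝ) (hρ : 0 < ρ)
    (hR : ∀ n : ℕ, ((walks b δ (2 * n) x x).card : ℝ) ≤ ρ ^ (2 * n)) (κ : ℤ) (hκ : κ ≠ 0) (D B J W A U : ℕ)
    (ε : ℝ) (hε : 0 < ε) (hε1 : ε ≤ 1) :
    ∃ k₀ : ℕ, ∀ k : ℕ, k₀ ≤ k → ∀ y : X, ρ ^ k / (k : ℝ) ^ D ≤ (walks b δ k x y).card →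
      ∀ c : ℤ, |c| ≤ B * (b : ℤ) ^ k →
      (((walks b δ k x y).filter fun v : ℕ => ¬ ∀ q : ℕ, 1 ≤ q → |(q : ℤ) - (c + κ * v)| ≤ (k : ℤ) ^ W →
        ∀ h : ℕ, 1 ≤ h → h ≤ k ^ J → Good ε ((k : ℝ) ^ A) (h * q)).card : ℝ) ≤
        (walks b δ k x y).card / (k : ℝ) ^ U := by
  obtain ⟨k₀, hmain⟩ := Pool.Agent.N625.PT.t_hooley
    (Pool.Agent.U847.TI.w_tcls (b := b) (δ := δ) ⟨hG.symm, hG.two⟩ x ρ hρ hR D κ hκ) B J W A U ε hε hε1
  refine ⟨k₀ + 1, fun k hk y hy c hc => ?_⟩
  refine Pool.Agent.U847.WT.w_num hρ (by omega) hy _ (fun p hp => ?_)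
  refine hmain k (by omega) p hp c hc (fun v => ∀ q : ℕ, 1 ≤ q → |(q : ℤ) - (c + κ * v)| ≤ (k : ℤ) ^ W →
        ∀ h : ℕ, 1 ≤ h → h ≤ k ^ J → Good ε ((k : ℝ) ^ A) (h * q)) ?_
  intro v hv
  push Not at hv
  obtain ⟨q, hq1, hq2, h, hh1, hh2, hbad⟩ := hv
  refine ⟨h, hh1, hh2, (q : ℤ) - (c + κ * v), hq2, ?_⟩
  have e : (h : ℤ) * (c + ((q : ℤ) - (c + κ * v)) + κ * v) = ((h * q : ℕ) : ℤ) := by
    push_cast
    ring
  rw [e]
  have h0 : 0 < h * q := Nat.mul_pos hh1 hq1
  refine ⟨by exact_mod_cast h0, ?_⟩
  unfold Good at hbad
  push Not at hbad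
  obtain ⟨x, hx1, hx2, hx3⟩ := hbad
  refine ⟨x, ?_, ?_, ?_⟩
  · rw [Int.cast_natCast]
    exact hx1
  · rw [Int.cast_natCast]
    exact hx2
  · rw [Int.cast_natCast, Int.toNat_natCast]
    exact not_le.2 hx3

end Pool.Agent.Results.MP_5d318d_nt.WalkModuli
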